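import Pool.Agent.Helper65.BR.Goals

/-!
# Machines with a memory of blocks: the parallel machines form a family computed in linear space
-/

set_option linter.unusedSectionVars false

namespace Pool.Agent.Helper94.BR

open Pool.Agent.Helper65.LinSpace Pool.Agent.Helper78.Mpc Finset
open Pool.Agent.Helper28.Ram hiding Mach LSM
open Pool.Agent.Helper65.BR
open Pool.Agent.Helper65.RT (qT CT)

variable {α β : Type} [Ctx α] [Ctx β]

theorem lsm_comp {m : α → Mach} {C : α → ℕ} (h : LSM m C) {π : β → α} (hπ : LS π) :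
    LSM (fun b => m (π b)) (fun b => C (π b)) where
  s := LS.comp (g := fun z => (m z).s) h.s hπ
  a := LS.comp (g := fun z => (m z).a) h.a hπ
  ν := LS.comp (g := fun z => (m z).ν) h.ν hπ
  E := LS.comp (g := fun z => (m z).E) h.E hπ
  G := LS.comp (g := fun z => (m z).G) h.G hπ
  K := LS.comp (g := fun z => (m z).K) h.K hπ
  A := LS.comp (g := fun z : α × ℕ => (m z.1).A z.2) (f := fun b : β × ℕ => (π b.1, b.2)) h.A
    (LS.prodMk (LS.comp hπ LS.fst) LS.snd)
  N := LS.comp (g := fun z : α × ℕ × ℕ => (m z.1).N z.2.1 z.2.2)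
    (f := fun b : β × ℕ × ℕ => (π b.1, b.2)) h.N (LS.prodMk (LS.comp hπ LS.fst) LS.snd)
  W := LS.comp (g := fun z : α × ℕ × ℕ × ℕ × ℕ =>
      (m z.1).W z.2.1 z.2.2.1 z.2.2.2.1 z.2.2.2.2)
    (f := fun b : β × ℕ × ℕ × ℕ × ℕ => (π b.1, b.2)) h.W
    (LS.prodMk (LS.comp hπ LS.fst) LS.snd)
  q0 := LS.comp (g := fun z => (m z).q0) h.q0 hπ
  M0 := LS.comp (g := fun z : α × ℕ => (m z.1).M0 z.2) (f := fun b : β × ℕ => (π b.1, b.2)) h.M0
    (LS.prodMk (LS.comp hπ LS.fst) LS.snd)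
  bd := LS.comp (g := C) h.bd hπ
  ok := fun z => h.ok (π z)
  hs := fun z => h.hs (π z)
  ha := fun z => h.ha (π z)

section fam

variable {m : α → Mach} {C : α → ℕ} (h : LSM m C)
include h

theorem l_pa : LS (fun z => 2 ^ (m z).a) :=
  LS.pow_of_le (f := fun _ => 2) (LS.const 2) h.a h.bd h.ha

theorem l_P : LS (fun z => (m z).P) := LS.add (LS.div h.s h.a) (LS.const 1)

theorem l_R : LS (fun z => (m z).R) :=
  LS.sub (LS.mul h.G h.E) (LS.add (l_P h) (LS.const 1))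

theorem l_σ : LS (fun z => (m z).σ) := LS.add (LS.add h.ν (LS.log2 (l_P h))) (LS.const 2)

variable {Z t x c q i v : α → ℕ}

theorem l_vz (hZ : LS Z) (ht : LS t) : LS (fun z => (m z).vz (Z z) (t z)) :=
  LS.dig (l_pa h) hZ (LS.add (LS.add (l_P h) (LS.const 1)) ht)

theorem l_A (hq : LS q) : LS (fun z => (m z).A (q z)) :=
  LS.comp (g := fun z : α × ℕ => (m z.1).A z.2) (f := fun z => (z, q z)) h.A
    (LS.prodMk LS.id hq)

theorem l_st (hZ : LS Z) (ht : LS t) : LS (fun z => (m z).st (Z z) (t z)) := by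
  have hc := lsm_comp h (π := fun p : α × ℕ × ℕ => p.1) LS.fst
  have hZ1 : LS (fun p : α × ℕ × ℕ => Z p.1) := LS.comp (g := Z) hZ LS.fst
  have h1 : LS (fun p : α × ℕ × ℕ => p.2.1) := by fun_prop
  have h2 : LS (fun p : α × ℕ × ℕ => p.2.2) := by fun_prop
  have h3 : LS (fun p : α × ℕ × ℕ => (m p.1).vz (Z p.1) p.2.1) := l_vz hc hZ1 h1
  have h4 : LS (fun p : α × ℕ × ℕ => (m p.1).N p.2.2 ((m p.1).vz (Z p.1) p.2.1)) :=
    LS.comp (g := fun z : α × ℕ × ℕ => (m z.1).N z.2.1 z.2.2)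
      (f := fun p : α × ℕ × ℕ => (p.1, p.2.2, (m p.1).vz (Z p.1) p.2.1)) h.N
      (LS.prodMk LS.fst (LS.prodMk h2 h3))
  refine LS.nrec (G := fun z => Z z % (2 ^ (m z).a) ^ (m z).P) (N := t)
    (C := fun z => Z z + C z) (K := fun z t q => (m z).N q ((m z).vz (Z z) t))
    (LS.modPow (l_pa h) hZ (l_P h)) ht (LS.add hZ h.bd) h4 ?_
  intro z i _
  rcases i with _ | i
  · rw [nrec_zero]
    exact (Nat.mod_le _ _).trans (Nat.le_add_right _ _)
  · rw [nrec_succ]
    exact (((h.ok z).hN _ _).le.trans (h.hs z)).trans (Nat.le_add_left _ _)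

theorem l_ct (hZ : LS Z) (hx : LS x) (hcc : LS c) (ht : LS t) :
    LS (fun z => (m z).ct (Z z) (x z) (c z) (t z)) := by
  have hc := lsm_comp h (π := fun p : α × ℕ × ℕ => p.1) LS.fst
  have hZ1 : LS (fun p : α × ℕ × ℕ => Z p.1) := LS.comp (g := Z) hZ LS.fst
  have hx1 : LS (fun p : α × ℕ × ℕ => x p.1) := LS.comp (g := x) hx LS.fst
  have h1 : LS (fun p : α × ℕ × ℕ => p.2.1) := by fun_prop
  have h2 : LS (fun p : α × ℕ × ℕ => p.2.2) := by fun_prop
  have h3 : LS (fun p : α × ℕ × ℕ => (m p.1).vz (Z p.1) p.2.1) := l_vz hc hZ1 h1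
  have h5 : LS (fun p : α × ℕ × ℕ => (m p.1).st (Z p.1) p.2.1) := l_st hc hZ1 h1
  have h4 : LS (fun p : α × ℕ × ℕ => (m p.1).W ((m p.1).st (Z p.1) p.2.1)
      ((m p.1).vz (Z p.1) p.2.1) (x p.1) p.2.2) :=
    LS.comp (g := fun z : α × ℕ × ℕ × ℕ × ℕ =>
        (m z.1).W z.2.1 z.2.2.1 z.2.2.2.1 z.2.2.2.2)
      (f := fun p : α × ℕ × ℕ => (p.1, (m p.1).st (Z p.1) p.2.1,
        (m p.1).vz (Z p.1) p.2.1, x p.1, p.2.2)) h.W
      (LS.prodMk LS.fst (LS.prodMk h5 (LS.prodMk h3 (LS.prodMk hx1 h2))))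
  refine LS.nrec (G := c) (N := t) (C := fun z => c z + C z)
    (K := fun z t c => (m z).W ((m z).st (Z z) t) ((m z).vz (Z z) t) (x z) c)
    hcc ht (LS.add hcc h.bd) h4 ?_
  intro z i _
  rcases i with _ | i
  · rw [nrec_zero]
    exact Nat.le_add_right _ _
  · rw [nrec_succ]
    exact (((h.ok z).hW _ _ _ _).le.trans (h.ha z)).trans (Nat.le_add_left _ _)

theorem l_val (hx : LS x) (hq : LS q) (hcc : LS c) :
    LS (fun z => (m z).val (x z) (q z) (c z)) := by
  have hacc : LS (fun z => accN (q z)) := by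
    unfold accN
    fun_prop
  exact LS.ifz (LS.mod hx (LS.const 2)) hcc
    (LS.ifz (LS.lt01 (LS.div hx (LS.const 2)) (l_P h)) hacc
      (LS.dig (l_pa h) hq (LS.div hx (LS.const 2))))

theorem l_qn (hx : LS x) (hi : LS i) (hZ : LS Z) :
    LS (fun z => (m z).qn (x z) (i z) (Z z)) := by
  have h1 : LS (fun z => i z - (m z).P - 1) := LS.sub (LS.sub hi (l_P h)) (LS.const 1)
  exact LS.ifz (LS.lt01 hi (l_P h))
    (LS.ifz (LS.sub hi (l_P h)) hx (LS.mul (LS.const 2) (l_A h (l_st h hZ h1))))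
    (LS.add (LS.mul (LS.const 2) hi) (LS.const 1))

theorem l_dg (hi : LS i) (hZ : LS Z) (hv : LS v) :
    LS (fun z => (m z).dg (i z) (Z z) (v z)) := by
  have h1 : LS (fun z => i z - (m z).P - 1) := LS.sub (LS.sub hi (l_P h)) (LS.const 1)
  exact LS.ifz (LS.le01 hi (l_P h)) (l_ct h hZ (l_A h (l_st h hZ h1)) hv h1) hv

end fam

/-- The parallel machine is admissible. -/
theorem rt_ok (m : Mach) (hm : m.Ok) : m.rt.Ok where
  hσ := by
    show 0 < m.σ
    unfold Pool.Agent.Helper65.BR.Mach.σ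
    omega
  ha := hm.ha
  hb := hm.ha
  hE := hm.hE
  hG := hm.hG
  hq := fun x i Z => Nat.mod_lt _ (by positivity)
  hg := fun x i Z v => Nat.mod_lt _ (by positivity)
  ho := fun x Z => Nat.mod_lt _ (by positivity)
  ht0 := fun x => Nat.mod_lt _ (by positivity)
  hroot := by
    show 2 * m.P + 1 < 2 ^ m.σ
    have h1 : m.P < 2 ^ (Nat.log 2 m.P + 1) := Nat.lt_pow_succ_log_self (by norm_num) _
    have h2 : 2 * m.P + 1 < 2 ^ (Nat.log 2 m.P + 2) := by
      rw [pow_succ 2 (Nat.log 2 m.P + 1)]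
      omega
    refine lt_of_lt_of_le h2 (Nat.pow_le_pow_right (by norm_num) ?_)
    unfold Pool.Agent.Helper65.BR.Mach.σ
    omega

/-- The parallel machines form a family computed in linear space. -/
theorem lsr : LSR_stmt := by
  intro α _ m x hx h hb
  have h1 := lsm_comp h (π := fun p : α × ℕ => p.1) LS.fst
  have h2 := lsm_comp h (π := fun p : α × ℕ × ℕ => p.1) LS.fst
  have h3 := lsm_comp h (π := fun p : α × ℕ × ℕ × ℕ => p.1) LS.fst
  have h4 := lsm_comp h (π := fun p : α × ℕ × ℕ × ℕ × ℕ => p.1) LS.fst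
  have hσ : LS (fun z => 2 ^ (m z).σ) := by
    refine LS.pow_of_le (f := fun _ => 2) (LS.const 2) (l_σ h) h.bd fun z => ?_
    refine le_trans (Nat.pow_le_pow_right (by norm_num) ?_) (hb z).2
    exact Nat.le_mul_of_pos_right _ (h.ok z).hE
  have ha := l_pa h
  have hP1 : LS (fun z => (m z).P + 1) := LS.add (l_P h) (LS.const 1)
  exact
    { σ := l_σ h
      a := h.a
      b := h.a
      E := h.E
      G := h.G
      K := LS.ifz (LS.le01 hP1 (LS.mul h.G h.E)) (LS.const 0) h.K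
      q := LS.mod (l_qn h3 (x := fun p : α × ℕ × ℕ × ℕ => p.2.1)
        (i := fun p : α × ℕ × ℕ × ℕ => p.2.2.1) (Z := fun p : α × ℕ × ℕ × ℕ => p.2.2.2)
        (by fun_prop) (by fun_prop) (by fun_prop))
        (LS.comp (g := fun z => 2 ^ (m z).σ) hσ LS.fst)
      g := LS.mod (l_dg h4 (i := fun p : α × ℕ × ℕ × ℕ × ℕ => p.2.2.1)
        (Z := fun p : α × ℕ × ℕ × ℕ × ℕ => p.2.2.2.1)
        (v := fun p : α × ℕ × ℕ × ℕ × ℕ => p.2.2.2.2)
        (by fun_prop) (by fun_prop) (by fun_prop))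
        (LS.comp (g := fun z => 2 ^ (m z).a) ha LS.fst)
      o := by
        have hx2 : LS (fun p : α × ℕ × ℕ => p.2.1) := by fun_prop
        have hZ2 : LS (fun p : α × ℕ × ℕ => p.2.2) := by fun_prop
        exact LS.mod (l_val h2 hx2 (l_st h2 hZ2 (l_R h2))
          (l_ct h2 hZ2 (LS.div hx2 (LS.const 2)) (LS.dig (l_pa h2) hZ2 (l_P h2)) (l_R h2)))
          (LS.comp (g := fun z => 2 ^ (m z).a) ha LS.fst)
      t0 := by
        have hx1 : LS (fun p : α × ℕ => p.2) := by fun_prop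
        have hM : LS (fun p : α × ℕ => (m p.1).M0 (p.2 / 2)) :=
          LS.comp (g := fun z : α × ℕ => (m z.1).M0 z.2) (f := fun p : α × ℕ => (p.1, p.2 / 2))
            h.M0 (LS.prodMk LS.fst (LS.div hx1 (LS.const 2)))
        exact LS.mod (l_val h1 hx1 h1.q0 hM) (LS.comp (g := fun z => 2 ^ (m z).a) ha LS.fst)
      root := LS.add (LS.mul (LS.const 2) (l_P h)) (LS.const 1)
      bd := h.bd
      ok := fun z => rt_ok (m z) (h.ok z)
      hC := fun z => (hb z).1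
      hS := fun z => (hb z).2 }

end Pool.Agent.Helper94.BR
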